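import Mathlib
import Pool.Agent.H10.Tv1

set_option autoImplicit false

namespace Pool.Agent.Results.MP_ba10a5_co.NotTverberg

open Finset Pool.Agent.H10.Tv

/-- no `d+1` points of `S` lie on a common affine hyperplane -/
def GenPos {d : ℕ} (S : Finset (Fin d → ℝ)) : Prop :=
  ∀ (a : Fin d → ℝ) (b : ℝ), a ≠ 0 → {x | x ∈ S ∧ ∑ i, a i * x i = b}.ncard ≤ d

/-- the convex hull of the class of `v` in the partition of `S` given by `c` -/
def hull {d : ℕ} {V : Type} (S : Finset (Fin d → ℝ)) (c : (Fin d → ℝ) → V) (v : V) :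
    Set (Fin d → ℝ) := convexHull ℝ {x | x ∈ S ∧ c x = v}

/-- `G` is partition induced on `S` -/
def Induced {d : ℕ} {V : Type} (G : SimpleGraph V) (S : Finset (Fin d → ℝ)) : Prop :=
  ∃ c : (Fin d → ℝ) → V, (∀ v, ∃ x ∈ S, c x = v) ∧
    (∀ u v, u ≠ v → ((hull S c u ∩ hull S c v).Nonempty ↔ G.Adj u v)) ∧
    (∀ u v w, u ≠ v → u ≠ w → v ≠ w → hull S c u ∩ hull S c v ∩ hull S c w = ∅)

def IsTverberg (d : ℕ) {V : Type} (G : SimpleGraph V) : Prop :=
  ∃ c : ℕ, ∀ S : Finset (Fin d → ℝ), GenPos S → c < S.card → Induced G S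

abbrev W (n : ℕ) := Fin n ⊕ Finset (Fin n)

def memG (n : ℕ) : SimpleGraph (W n) where
  Adj u v := ∃ x A, x ∈ A ∧ ((u = Sum.inl x ∧ v = Sum.inr A) ∨ (v = Sum.inl x ∧ u = Sum.inr A))
  symm := ⟨fun u v ⟨x, A, h, h'⟩ => ⟨x, A, h, h'.symm⟩⟩
  loopless := ⟨fun u ⟨x, A, h, h'⟩ => by
    rcases h' with ⟨a, b⟩ | ⟨a, b⟩ <;> (rw [a] at b; cases b)⟩

def A2 {V : Type} (T : Finset ℝ) (col : ℝ → V) (L : ℕ) (u v : V) : Prop :=
  ∃ e : ℕ → ℝ, (∀ i, i < L → e i ∈ T ∧ (col (e i) = u ∨ col (e i) = v)) ∧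
    ∀ i, i + 1 < L → e i < e (i + 1) ∧ col (e i) ≠ col (e (i + 1))

lemma A2_iff {V : Type} [DecidableEq V] (T : Finset ℝ) (col : ℝ → V) (L : ℕ) (u v : V) (huv : u ≠ v) :
    A2 T col L u v ↔ Alt (T.filter (fun t => col t = u ∨ col t = v))
      (fun t => decide (col t = u)) L := by
  constructor
  · rintro ⟨e, h1, h2⟩
    refine ⟨e, fun i hi => mem_filter.2 (h1 i hi), fun i hi => ⟨(h2 i hi).1, ?_⟩⟩
    have a := (h2 i hi).2
    rcases (h1 i (by omega)).2 with b | b <;> rcases (h1 _ hi).2 with c | c <;>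
      simp_all [huv.symm]
  · rintro ⟨e, h1, h2⟩
    refine ⟨e, fun i hi => mem_filter.1 (h1 i hi), fun i hi => ⟨(h2 i hi).1, ?_⟩⟩
    intro e'
    exact (h2 i hi).2 (by simp only [e'])

lemma count (d n : ℕ) (T : Finset ℝ) (col : ℝ → W n)
    (H : ∀ u v, u ≠ v → (A2 T col (d + 2) u v ↔ (memG n).Adj u v)) :
    2 ^ n ≤ ((d + 3) * (d * n ^ 2 + 1) ^ (d + 2)) ^ 2 := by
  classical
  have hb : ∀ p : Fin n × Fin n, ∃ B : Finset ℝ, B.card ≤ d ∧ ∀ t ∈ T, ∀ t' ∈ T, t < t' → p.1 ≠ p.2 →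
      col t = Sum.inl p.1 → col t' = Sum.inl p.2 → ∃ b ∈ B, t < b ∧ b < t' := by
    intro p
    by_cases hp : p.1 = p.2
    · exact ⟨∅, by simp, fun _ _ _ _ _ h => absurd hp h⟩
    have hne : (Sum.inl p.1 : W n) ≠ Sum.inl p.2 := fun e => hp (Sum.inl.inj e)
    have hna : ¬ A2 T col (d + 2) (Sum.inl p.1) (Sum.inl p.2) := by
      rw [H _ _ hne]
      rintro ⟨x, A, _, ⟨_, h⟩ | ⟨_, h⟩⟩ <;> cases h
    rw [A2_iff _ _ _ _ _ hne] at hna
    obtain ⟨B, h1, h2⟩ := breaks d _ _ hna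
    refine ⟨B, h1, fun t ht t' ht' hlt _ c1 c2 => h2 t (mem_filter.2 ⟨ht, Or.inl c1⟩) t'
      (mem_filter.2 ⟨ht', Or.inr c2⟩) hlt ?_⟩
    simp [c1, c2, Ne.symm hp]
  choose Bp hB1 hB2 using hb
  set B := univ.biUnion Bp with hB
  have hBc : B.card ≤ d * n ^ 2 := by
    refine card_biUnion_le.trans ((sum_le_sum fun p _ => hB1 p).trans ?_)
    simp; nlinarith
  let r : ℝ → ℕ := fun t => (B.filter (fun b => b < t)).card
  have rmono : ∀ {t t' : ℝ}, t ≤ t' → r t ≤ r t' := by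
    intro t t' h
    exact card_le_card fun b hb => mem_filter.2 ⟨(mem_filter.1 hb).1, (mem_filter.1 hb).2.trans_le h⟩
  have rlt : ∀ {t t' : ℝ}, r t < r t' → t < t' := by
    intro t t' h
    by_contra h'
    exact absurd (rmono (not_lt.1 h')) (not_le.2 h)
  set M := d * n ^ 2 + 1 with hM
  have rM : ∀ t, r t < M := fun t => lt_of_le_of_lt ((card_filter_le _ _).trans hBc) (by omega)
  have rone' : ∀ t ∈ T, ∀ t' ∈ T, ∀ x x', t < t' → col t = Sum.inl x → col t' = Sum.inl x' →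
      r t = r t' → x = x' := by
    intro t ht t' ht' x x' hlt c1 c2 hr
    by_contra hne
    obtain ⟨b, hb, b1, b2⟩ := hB2 (x, x') t ht t' ht' hlt hne c1 c2
    have : r t < r t' := by
      apply card_lt_card
      refine ⟨fun b hb => mem_filter.2 ⟨(mem_filter.1 hb).1, (mem_filter.1 hb).2.trans hlt⟩, ?_⟩
      intro hsub
      have : b ∈ B.filter (fun b => b < t) :=
        hsub (mem_filter.2 ⟨mem_biUnion.2 ⟨_, mem_univ _, hb⟩, b2⟩)
      exact absurd (mem_filter.1 this).2 (not_lt.2 b1.le)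
    omega
  have rone : ∀ t ∈ T, ∀ t' ∈ T, ∀ x x', col t = Sum.inl x → col t' = Sum.inl x' →
      r t = r t' → x = x' := by
    intro t ht t' ht' x x' c1 c2 hr
    rcases lt_trichotomy t t' with h | h | h
    · exact rone' t ht t' ht' x x' h c1 c2 hr
    · subst h; rw [c1] at c2; exact Sum.inl.inj c2
    · exact (rone' t' ht' t ht x' x h c2 c1 hr.symm).symm
  let supp : Finset (Fin n) → Finset ℕ := fun A => (T.filter (fun t => col t = Sum.inr A)).image r
  have hsupp : ∀ A ρ, ρ ∈ supp A ↔ ∃ t ∈ T, col t = Sum.inr A ∧ r t = ρ := by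
    intro A ρ; simp [supp, and_assoc]
  have big : ∀ A A' (Z : Finset ℕ), Z.card = d + 2 → Z ⊆ supp A → Z ⊆ supp A' → A = A' := by
    intro A A' Z hZ h1 h2
    by_contra hne
    have hne' : (Sum.inr A : W n) ≠ Sum.inr A' := fun e => hne (Sum.inr.inj e)
    have : A2 T col (d + 2) (Sum.inr A) (Sum.inr A') := by
      let ρ := Z.orderEmbOfFin hZ
      have hex : ∀ i : ℕ, ∃ t, ∀ h : i < d + 2, t ∈ T ∧
          col t = (if i % 2 = 0 then Sum.inr A else Sum.inr A') ∧ r t = ρ ⟨i, h⟩ := by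
        intro i
        by_cases h : i < d + 2
        · have hm := Finset.orderEmbOfFin_mem Z hZ ⟨i, h⟩
          split_ifs
          · obtain ⟨t, a, b, c⟩ := (hsupp _ _).1 (h1 hm)
            exact ⟨t, fun _ => ⟨a, b, c⟩⟩
          · obtain ⟨t, a, b, c⟩ := (hsupp _ _).1 (h2 hm)
            exact ⟨t, fun _ => ⟨a, b, c⟩⟩
        · exact ⟨0, fun h' => absurd h' h⟩
      choose e he using hex
      refine ⟨e, fun i hi => ⟨(he i hi).1, ?_⟩, fun i hi => ⟨rlt ?_, ?_⟩⟩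
      · rw [(he i hi).2.1]; split_ifs <;> simp
      · rw [(he i (by omega)).2.2, (he _ hi).2.2]
        exact ρ.strictMono (by simp [Fin.lt_def])
      · rw [(he i (by omega)).2.1, (he _ hi).2.1]
        by_cases hp : i % 2 = 0
        · rw [if_pos hp, if_neg (by omega)]; exact hne'
        · rw [if_neg hp, if_pos (by omega)]; exact hne'.symm
    rw [H _ _ hne'] at this
    obtain ⟨x, A, _, ⟨h, _⟩ | ⟨h, _⟩⟩ := this <;> cases h
  have adj : ∀ x A, A2 T col (d + 2) (Sum.inl x) (Sum.inr A) ↔ x ∈ A := by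
    intro x A
    rw [H _ _ (by simp)]
    constructor
    · rintro ⟨y, A', h, ⟨a, b⟩ | ⟨a, b⟩⟩
      · cases a; cases b; exact h
      · cases a
    · intro h; exact ⟨x, A, h, Or.inl ⟨rfl, rfl⟩⟩
  have small : ∀ A A' x, supp A = supp A' → (∀ t ∈ T, col t = Sum.inl x → r t ∉ supp A) →
      x ∈ A → x ∈ A' := by
    intro A A' x hs hx hA
    obtain ⟨e, h1, h2⟩ := (adj x A).2 hA
    have hex : ∀ i : ℕ, ∃ t, i < d + 2 → t ∈ T ∧ r t = r (e i) ∧
        (col (e i) = Sum.inl x → col t = Sum.inl x) ∧ (col (e i) = Sum.inr A → col t = Sum.inr A') := by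
      intro i
      by_cases hi : i < d + 2
      · rcases (h1 i hi).2 with c | c
        · exact ⟨e i, fun _ => ⟨(h1 i hi).1, rfl, id, fun c' => by rw [c] at c'; cases c'⟩⟩
        · have : r (e i) ∈ supp A' := hs ▸ (hsupp _ _).2 ⟨_, (h1 i hi).1, c, rfl⟩
          obtain ⟨t, a, b, c'⟩ := (hsupp _ _).1 this
          exact ⟨t, fun _ => ⟨a, c', fun c'' => (by rw [c] at c''; cases c''), fun _ => b⟩⟩
      · exact ⟨0, fun h' => absurd h' hi⟩
    choose e' he using hex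
    refine (adj x A').1 ⟨e', fun i hi => ⟨(he i hi).1, ?_⟩, fun i hi => ?_⟩
    · rcases (h1 i hi).2 with c | c
      · exact Or.inl ((he i hi).2.2.1 c)
      · exact Or.inr ((he i hi).2.2.2 c)
    · have i0 : i < d + 2 := by omega
      have hle := rmono (h2 i hi).1.le
      have hc := (h2 i hi).2
      rcases (h1 i i0).2 with c | c <;> rcases (h1 _ hi).2 with c' | c'
      · exact absurd (c.trans c'.symm) hc
      · refine ⟨rlt ?_, ?_⟩
        · rw [(he i i0).2.1, (he _ hi).2.1]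
          refine lt_of_le_of_ne hle fun e'' => hx _ (h1 i i0).1 c ?_
          rw [e'']; exact (hsupp _ _).2 ⟨_, (h1 _ hi).1, c', rfl⟩
        · rw [(he i i0).2.2.1 c, (he _ hi).2.2.2 c']; simp
      · refine ⟨rlt ?_, ?_⟩
        · rw [(he i i0).2.1, (he _ hi).2.1]
          refine lt_of_le_of_ne hle fun e'' => hx _ (h1 _ hi).1 c' ?_
          rw [← e'']; exact (hsupp _ _).2 ⟨_, (h1 i i0).1, c, rfl⟩
        · rw [(he i i0).2.2.2 c, (he _ hi).2.2.1 c']; simp
      · exact absurd (c.trans c'.symm) hc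
  let Sm : Finset (Finset ℕ) := (range (d + 3)).biUnion fun j => powersetCard j (range M)
  have hSm : ∀ Z : Finset ℕ, Z.card ≤ d + 2 → (∀ ρ ∈ Z, ρ < M) → Z ∈ Sm := by
    intro Z h1 h2
    exact mem_biUnion.2 ⟨Z.card, mem_range.2 (by omega),
      mem_powersetCard.2 ⟨fun ρ h => mem_range.2 (h2 ρ h), rfl⟩⟩
  have hSmc : Sm.card ≤ (d + 3) * M ^ (d + 2) := by
    refine card_biUnion_le.trans ?_
    have : ∀ j ∈ range (d + 3), (powersetCard j (range M)).card ≤ M ^ (d + 2) := by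
      intro j hj
      rw [card_powersetCard, card_range]
      exact (Nat.choose_le_pow _ _).trans
        (Nat.pow_le_pow_right (by omega) (by have := mem_range.1 hj; omega))
    simpa using sum_le_card_nsmul _ _ _ this
  have suppM : ∀ A, ∀ ρ ∈ supp A, ρ < M := by
    intro A ρ h
    obtain ⟨t, _, _, rfl⟩ := (hsupp _ _).1 h
    exact rM t
  have hex : ∀ A : Finset (Fin n), ∃ Z : Finset ℕ, Z ⊆ supp A ∧
      (Z.card = d + 2 ∨ (Z = supp A ∧ Z.card ≤ d + 1)) := by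
    intro A
    by_cases h : d + 2 ≤ (supp A).card
    · obtain ⟨Z, h1, h2⟩ := exists_subset_card_eq h
      exact ⟨Z, h1, Or.inl h2⟩
    · exact ⟨supp A, Subset.rfl, Or.inr ⟨rfl, by omega⟩⟩
  choose Z hZ1 hZ2 using hex
  let Y : Finset (Fin n) → Finset ℕ := fun A =>
    (Z A).filter (fun ρ => ∃ t ∈ T, r t = ρ ∧ ∃ x ∈ A, col t = Sum.inl x)
  have hZc : ∀ A, (Z A).card ≤ d + 2 := fun A => by rcases hZ2 A with h | h <;> omega
  have half : ∀ A A', Z A = supp A → supp A = supp A' → Y A = Y A' → A ⊆ A' := by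
    intro A A' e1 e2 e3 x hx
    by_cases hh : ∀ t ∈ T, col t = Sum.inl x → r t ∉ supp A
    · exact small A A' x e2 hh hx
    · push Not at hh
      obtain ⟨t, ht, c, hr⟩ := hh
      have : r t ∈ Y A' := e3 ▸ mem_filter.2 ⟨e1 ▸ hr, t, ht, rfl, x, hx, c⟩
      obtain ⟨t', ht', hr', x', hx', c'⟩ := (mem_filter.1 this).2
      rw [rone t ht t' ht' x x' c c' hr'.symm]; exact hx'
  have hinj : (univ : Finset (Finset (Fin n))).card ≤ (Sm ×ˢ Sm).card := by
    apply card_le_card_of_injOn (fun A => (Z A, Y A))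
    · intro A _
      refine mem_coe.2 (mem_product.2 ⟨hSm _ (hZc A) fun ρ h => suppM A ρ (hZ1 A h),
        hSm _ ((card_filter_le _ _).trans (hZc A)) fun ρ h => suppM A ρ (hZ1 A (mem_filter.1 h).1)⟩)
    · intro A _ A' _ e
      have e1 : Z A = Z A' := congrArg Prod.fst e
      have e2 : Y A = Y A' := congrArg Prod.snd e
      rcases hZ2 A with h | h
      · exact big A A' (Z A) h (hZ1 A) (e1 ▸ hZ1 A')
      · rcases hZ2 A' with h' | h'
        · rw [e1] at h; omega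
        · have e3 : supp A = supp A' := by rw [← h.1, ← h'.1, e1]
          exact Subset.antisymm (half A A' h.1 e3 e2) (half A' A h'.1 e3.symm e2.symm)
  rw [card_univ, Fintype.card_finset, Fintype.card_fin, card_product] at hinj
  exact hinj.trans (by rw [sq]; exact Nat.mul_le_mul hSmc hSmc)

lemma exists_n (d : ℕ) : ∃ n : ℕ, ((d + 3) * (d * n ^ 2 + 1) ^ (d + 2)) ^ 2 < 2 ^ n := by
  set c : ℝ := (((d : ℝ) + 3) * ((d : ℝ) + 1) ^ (d + 2)) ^ 2 with hc
  have hc0 : 0 < c := by positivity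
  have := tendsto_pow_const_div_const_pow_of_one_lt (4 * d + 8) (show (1 : ℝ) < 2 by norm_num)
  have h2 := (this.eventually (gt_mem_nhds (show (0 : ℝ) < 1 / c by positivity))).and
    (Filter.eventually_ge_atTop 1)
  obtain ⟨n, h3, h4⟩ := h2.exists
  refine ⟨n, ?_⟩
  have h5 : (1 : ℝ) ≤ n := by exact_mod_cast h4
  rw [div_lt_div_iff₀ (by positivity) hc0, one_mul] at h3
  have h6 : ((d : ℝ) * n ^ 2 + 1) ≤ (d + 1) * n ^ 2 := by nlinarith
  have h7 : (((d : ℝ) + 3) * ((d : ℝ) * n ^ 2 + 1) ^ (d + 2)) ^ 2 ≤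
      (((d : ℝ) + 3) * ((d + 1) * n ^ 2) ^ (d + 2)) ^ 2 := by gcongr
  have h8 : (((d : ℝ) + 3) * ((d + 1) * n ^ 2) ^ (d + 2)) ^ 2 = (n : ℝ) ^ (4 * d + 8) * c := by
    rw [hc, mul_pow ((d : ℝ) + 1), ← pow_mul]; ring
  have : (((d : ℝ) + 3) * ((d : ℝ) * n ^ 2 + 1) ^ (d + 2)) ^ 2 < 2 ^ n := by linarith
  exact_mod_cast this

theorem result (d : ℕ) (hd : 1 ≤ d) :
    ∃ (V : Type) (_ : Finite V) (G : SimpleGraph V), G.Colorable 2 ∧ ¬ IsTverberg d G := by
  classical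
  obtain ⟨n, hn⟩ := exists_n d
  refine ⟨W n, inferInstance, memG n, ?_, ?_⟩
  · refine ⟨SimpleGraph.Coloring.mk (fun u => Sum.elim (fun _ => 0) (fun _ => 1) u) ?_⟩
    rintro u v ⟨x, A, _, ⟨rfl, rfl⟩ | ⟨rfl, rfl⟩⟩ <;> simp
  rintro ⟨c, hc⟩
  have hinj : Function.Injective (gam d) := by
    intro a b e
    have := congrFun e ⟨0, hd⟩
    simpa [gam] using this
  let T : Finset ℝ := (range (c + 1)).image (fun k : ℕ => (k : ℝ))
  have hT : T.card = c + 1 := by
    rw [card_image_of_injective _ Nat.cast_injective, card_range]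
  obtain ⟨col, _, h2, _⟩ := hc (T.image (gam d)) (by
    intro a b ha
    have : {x | x ∈ T.image (gam d) ∧ ∑ i, a i * x i = b}
        = ((T.filter (fun t => ∑ i, a i * gam d t i = b)).image (gam d) : Finset _) := by
      ext x
      simp only [mem_image, Set.mem_ofPred_eq, coe_image, coe_filter, Set.mem_image]
      constructor
      · rintro ⟨⟨t, ht, rfl⟩, h⟩; exact ⟨t, ⟨ht, h⟩, rfl⟩
      · rintro ⟨t, ⟨ht, h⟩, rfl⟩; exact ⟨⟨t, ht, rfl⟩, h⟩
    rw [this, Set.ncard_coe_finset]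
    exact card_image_le.trans (genpos d T a b ha))
    (by rw [card_image_of_injective _ hinj, hT]; omega)
  refine absurd (count d n T (fun t => col (gam d t)) ?_) (not_le.2 hn)
  intro u v huv
  rw [← h2 u v huv, A2_iff _ _ _ _ _ huv]
  have e1 : hull (T.image (gam d)) col u = convexHull ℝ (gam d '' {t | t ∈
      T.filter (fun t => col (gam d t) = u ∨ col (gam d t) = v) ∧ decide (col (gam d t) = u) = true}) := by
    unfold hull
    congr 1
    ext x
    simp only [mem_image, Set.mem_ofPred_eq, Set.mem_image, mem_filter, decide_eq_true_eq]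
    constructor
    · rintro ⟨⟨t, ht, rfl⟩, h⟩; exact ⟨t, ⟨⟨ht, Or.inl h⟩, h⟩, rfl⟩
    · rintro ⟨t, ⟨⟨ht, _⟩, h⟩, rfl⟩; exact ⟨⟨t, ht, rfl⟩, h⟩
  have e2 : hull (T.image (gam d)) col v = convexHull ℝ (gam d '' {t | t ∈
      T.filter (fun t => col (gam d t) = u ∨ col (gam d t) = v) ∧ decide (col (gam d t) = u) = false}) := by
    unfold hull
    congr 1
    ext x
    simp only [mem_image, Set.mem_ofPred_eq, Set.mem_image, mem_filter, decide_eq_false_iff_not]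
    constructor
    · rintro ⟨⟨t, ht, rfl⟩, h⟩
      exact ⟨t, ⟨⟨ht, Or.inr h⟩, fun h' => huv (h'.symm.trans h)⟩, rfl⟩
    · rintro ⟨t, ⟨⟨ht, h'⟩, h⟩, rfl⟩; exact ⟨⟨t, ht, rfl⟩, h'.resolve_left h⟩
  rw [e1, e2]
  constructor
  · intro h
    exact meet d _ _ h
  · rintro ⟨x, hx1, hx2⟩
    by_contra hn'
    exact sep d _ _ hn' x hx1 hx2

end Pool.Agent.Results.MP_ba10a5_co.NotTverberg
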